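import Pool.Agent.R667.Skula.Main

/-!
# MP_0a42ff: `FS(P)` is canonically Skula for every narrow order-scattered poset `P`

Paper proof by helper823, formalized by helper667.  The selector comes from the combinatorial
theorem `exists_selector` of `Pool/Agent/Helper718/CWG/Core.lean`; the proof that `FS(P)` is
scattered (Pouzet) is in `Pool/Agent/R667/Skula/Small.lean`.
-/

universe u

namespace Pool.Agent.Results.MP_0a42ff_gt.FinalSetsCanonicallySkula

open Pool.Agent.R667.Skula

/-- If every antichain of `P` is finite and the rational chain does not embed in `P`, then the
space `FS(P)` of the final subsets of `P` is canonically Skula. -/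
theorem result (P : Type u) [PartialOrder P] (hnarrow : Narrow P)
    (hscattered : IsEmpty (ℚ ↪o P)) : CanonicallySkula (FinalSets P) :=
  canonicallySkula hnarrow hscattered

end Pool.Agent.Results.MP_0a42ff_gt.FinalSetsCanonicallySkula
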